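import Pool.Agent.K7.H5.Sing2

/-!
# Good minimal models of degenerate complete intersections in tori

Let `V` be a component, of dimension `n ≥ 1`, of the set of common zeros in the torus
`(ℂ^*)^(n + q)` of Laurent polynomials `f 1, ..., f q`, which is generically reduced (the gradients
of the `f l` are linearly independent at the generic point of `V`). Its function field is `K`, and
the coordinates are the `x i`. Let `ω` be the residue form on `V`, which is given by
`ω ∧ d f 1 ∧ ... ∧ d f q = dlog x 1 ∧ ... ∧ dlog x (n + q)`, up to the sign.

For a prime divisor `P` over `V` let `v = ord_P(x)`, let `mn v` be the sum of the minima of the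
linear function `v` on the supports of the `f l`, and let `a(P) = ord_P(ω)` if `v = 0` and
`a(P) = ord_P(ω) + 1 + mn v` if `v ≠ 0`. So `a(P)` is the discrepancy of `P` with respect to `V` if
the centre of `P` is in the torus, and otherwise the log discrepancy of `P` with respect to the pair
of a compactification of `V`, in a toric variety, and its boundary.

The system is nondegenerate at `P` if the logarithmic gradients of the initial parts `ini v (f l)`
are linearly independent at the residue of the generic point `x` at `P`. If `v = 0` this means that
`V` is smooth at the centre of `P`. Systems which are nondegenerate in the sense of Khovanskii are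
nondegenerate at all `P`. This is not assumed here: `V` may have singularities in the torus, and it
may be degenerate at infinity.

**Theorem.** Suppose that the Fine interior of the system is not empty, and that at all `P` where
the system is degenerate the centre of `P` is small (it has codimension at least two on all toric
compactifications: no `n - 1` monomials have algebraically independent residues at `P`) and
`a(P) ≥ 0`. Then `V` is birational to a normal projective variety `X'` with canonical singularities
and nef, even semiample, canonical divisor. If moreover `a(P) ≥ 1` at all `P` where the system is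
degenerate, then `X'` has terminal singularities.

So the minimal model conjecture is true for these `V`, in the form (a): for the second part directly,
and for the first part because a variety with canonical singularities has a crepant projective
partial resolution with terminal singularities (Birkar, Cascini, Hacon, McKernan). For example this
is the case if the system is nondegenerate in all directions `v ≠ 0` and `V` has only canonical (for
the second part: terminal) singularities in the torus, such as ordinary double points if `n ≥ 3`.

Proof. As for `NondegenerateMinimalModels`: `X'` is the normalisation of the closure of `V` in a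
simplicial projective toric variety whose rays are the tight vectors of the Fine interior `F`, and
which refines the normal fan of `F` (`exists_PD`). The monomials in `c F` give `c`-canonical forms,
which generate `c K_{X'}`. The prime divisors of `X'` are places where the system is nondegenerate;
the orders of the sections at the other places are estimated by means of `a(P)`
(`exists_model_sing`).
-/

set_option autoImplicit false

open FF Pool.Agent.W602.GT Pool.Agent.Y172 Pool.Agent.R885 Pool.Agent.R887

namespace Pool.Agent.Results.MP_fa3f7f_ag.DegenerateMinimalModels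

section

variable {K : Type} [Field K] [Algebra ℂ K]

/-- `x` is the generic point of a subvariety of dimension `n`, with function field `K`, of the set
of common zeros of the `f l` in the torus `(ℂ^*) ^ r`. -/
def IsGenericPoint {r q : ℕ} (n : ℕ) (f : Fin q → (Fin r → ℤ) →₀ ℂ) (x : Fin r → K) : Prop :=
  (∀ i, x i ≠ 0) ∧ (∀ l, ev x (f l) = 0) ∧
    IntermediateField.adjoin ℂ (Set.range x) = ⊤ ∧ Algebra.trdeg ℂ K = (n : ℕ)

/-- The vector of the orders of the coordinates at the place `P`. -/
def direction {r : ℕ} (x : Fin r → K) (P : Place ℂ K) : Fin r → ℤ := fun i => P.ord (x i)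

/-- The determinant with the rows `grad f l` (logarithmic gradients at `x`) and `C a`. The bijection
`e` puts the columns in an order, it only matters for the sign. -/
noncomputable def gradDet {n q r : ℕ} (e : Fin q ⊕ Fin n ≃ Fin r)
    (f : Fin q → (Fin r → ℤ) →₀ ℂ) (x : Fin r → K) (C : Fin n → Fin r → ℤ) : K :=
  (Matrix.of fun (a b : Fin q ⊕ Fin n) =>
    Sum.elim (fun l => gr x (f l)) (fun a' i => (C a' i : K)) a (e b)).det

/-- The form `ω` is the residue form: for all integral vectors `C a` and derivations `D b`, the
product of `ω D` and the determinant with the rows `grad f l` and `C a` is the determinant of the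
numbers `∑ i, C a i * D b (x i) / x i`. -/
def IsResidueForm {n q r : ℕ} (e : Fin q ⊕ Fin n ≃ Fin r) (f : Fin q → (Fin r → ℤ) →₀ ℂ)
    (x : Fin r → K) (ω : (Fin n → Derivation ℂ K K) → K) : Prop :=
  ∀ (C : Fin n → Fin r → ℤ) (D : Fin n → Derivation ℂ K K), gradDet e f x C * ω D =
    (Matrix.of fun a b => ∑ i, (C a i : K) * (D b (x i) / x i)).det

/-- The system is nondegenerate at the place `P`: for some integral vectors `C a` the determinant
with the rows `grad f l` and `C a` has the smallest possible order at `P`, which is the sum of the
minima of `v = ord_P(x)` on the supports of the `f l`. In other words, the initial parts of the rows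
`grad f l`, which are the logarithmic gradients of the initial parts `ini v (f l)` at the residue of
`x`, are linearly independent. -/
def NondegenerateAt {n q r : ℕ} (e : Fin q ⊕ Fin n ≃ Fin r) (f : Fin q → (Fin r → ℤ) →₀ ℂ)
    (x : Fin r → K) (P : Place ℂ K) : Prop :=
  ∃ C : Fin n → Fin r → ℤ, gradDet e f x C ≠ 0 ∧
    P.ord (gradDet e f x C) = ∑ l, mn (direction x P) (f l)

/-- The centre of `P` is small: there are no `m` monomials in the coordinates with algebraically
independent residues at `P`; that is, for any `m` monomials there is a nonzero polynomial whose value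
at these monomials is not a unit at `P`. -/
def SmallCentre {r : ℕ} (m : ℕ) (x : Fin r → K) (P : Place ℂ K) : Prop :=
  ∀ s : Fin m → Fin r → ℤ, ∃ p : MvPolynomial (Fin m) ℂ, p ≠ 0 ∧
    (MvPolynomial.aeval (fun i => R885.mono x (s i)) p = 0 ∨
      P.ord (MvPolynomial.aeval (fun i => R885.mono x (s i)) p) ≠ 0)

open scoped Classical in
/-- The form `ω` satisfies `a(P) ≥ a`: its order at `P` is at least `a` if `v = ord_P(x)` is zero,
and at least `a - 1 - mn v` otherwise. -/
def Discrepancy {n r q : ℕ} (f : Fin q → (Fin r → ℤ) →₀ ℂ) (x : Fin r → K)
    (ω : (Fin n → Derivation ℂ K K) → K) (P : Place ℂ K) (a : ℤ) : Prop :=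
  OrdGe P ω ((if direction x P = 0 then a else a - 1 - ∑ l, mn (direction x P) (f l) : ℤ) : ℚ)

/-- The system is log canonical at `P`: it is nondegenerate at `P`, or the centre of `P` is small and
`a(P) ≥ 0`. -/
def LogCanonicalAt {n r q : ℕ} (e : Fin q ⊕ Fin n ≃ Fin r) (f : Fin q → (Fin r → ℤ) →₀ ℂ)
    (x : Fin r → K) (ω : (Fin n → Derivation ℂ K K) → K) (P : Place ℂ K) : Prop :=
  NondegenerateAt e f x P ∨ (SmallCentre (n - 1) x P ∧ Discrepancy f x ω P 0)

/-- The system is terminal at `P`: it is nondegenerate at `P`, or the centre of `P` is small and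
`a(P) ≥ 1`. -/
def TerminalAt {n r q : ℕ} (e : Fin q ⊕ Fin n ≃ Fin r) (f : Fin q → (Fin r → ℤ) →₀ ℂ)
    (x : Fin r → K) (ω : (Fin n → Derivation ℂ K K) → K) (P : Place ℂ K) : Prop :=
  NondegenerateAt e f x P ∨ (SmallCentre (n - 1) x P ∧ Discrepancy f x ω P 1)

/-- The Fine interior of the system. -/
def FineInterior {r q : ℕ} (f : Fin q → (Fin r → ℤ) →₀ ℂ) : Set (Fin r → ℚ) :=
  {u | ∀ v : Fin r → ℤ, v ≠ 0 → 1 + ∑ l, (mn v (f l) : ℚ) ≤ ∑ i, u i * (v i : ℚ)}

end

/-- The variety `X` with generic point `y`, of dimension `n`, has canonical singularities: for every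
prime divisor `Q` over `X` there is an `r`-canonical form `η` which generates `r K_X` at the centre
of `Q` on `X` (its order is `0` along all prime divisors `P` of `X` through this centre), with order
at least `0` along `Q`. -/
def Canonical {K : Type} [Field K] [Algebra ℂ K] {N : ℕ} (y : Fin (N + 1) → K) (n : ℕ) : Prop :=
  ∀ Q : Place ℂ K, Divisorial n Q → ∃ r : ℕ, 0 < r ∧ ∃ η : (Fin n → Derivation ℂ K K) → K,
    IsPluri r η ∧ (∀ P, IsPrimeDivisor y P → Through y P Q → OrdEq P η 0) ∧ OrdGe Q η 0

/-- There is a normal projective variety, of dimension `n` and with function field `K`, which has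
canonical singularities and a nef and semiample canonical divisor. -/
def GoodCanonicalModel (K : Type) [Field K] [Algebra ℂ K] (n : ℕ) : Prop :=
  ∃ (N : ℕ) (y : Fin (N + 1) → K), NormalModel y ∧ Canonical y n ∧ CanonicalNef y n ∧
    K7.H5.CanonicalSemiample y n

/-- There is a normal projective variety, of dimension `n` and with function field `K`, which has
terminal singularities and a nef and semiample canonical divisor. -/
def GoodTerminalModel (K : Type) [Field K] [Algebra ℂ K] (n : ℕ) : Prop :=
  ∃ (N : ℕ) (y : Fin (N + 1) → K), NormalModel y ∧ K7.H5.Terminal y n ∧ CanonicalNef y n ∧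
    K7.H5.CanonicalSemiample y n

section

variable {K : Type} [Field K] [Algebra ℂ K] {n q r : ℕ} {e : Fin q ⊕ Fin n ≃ Fin r}
  {f : Fin q → (Fin r → ℤ) →₀ ℂ} {x : Fin r → K}

theorem exists_dt (hred : LinearIndependent K fun l => gr x (f l)) (e : Fin q ⊕ Fin n ≃ Fin r) :
    ∃ C0 : Fin n → Fin r → ℤ, dt e (fun l => gr x (f l)) C0 ≠ 0 := by
  obtain ⟨C, hC⟩ := complete_zero hred (n := n) (by
    rw [← Fintype.card_congr e, Fintype.card_sum, Fintype.card_fin n])
  exact ⟨C, dt_ne hC⟩

/-- The residue form exists. -/
theorem exists_residueForm (hx : ∀ i, x i ≠ 0) (hfx : ∀ l, ev x (f l) = 0)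
    (hred : LinearIndependent K fun l => gr x (f l)) (e : Fin q ⊕ Fin n ≃ Fin r) :
    ∃ ω, IsResidueForm e f x ω := by
  obtain ⟨C0, h0⟩ := exists_dt hred e
  refine ⟨Om e x f C0, fun C D => ?_⟩
  have h1 := dt_cw (C := C) h0 (W := fun a => lg x (D a)) fun l a => gr_lg hx (hfx l) (D a)
  change dt e (fun l => gr x (f l)) C * Om e x f C0 D = (cw C fun a => lg x (D a)).det
  unfold Om
  rw [mul_div_assoc', div_eq_iff h0]
  linear_combination -h1

/-- It is the form of the library. -/
theorem ndp_of (hx : ∀ i, x i ≠ 0) (hf0 : ∀ l, f l ≠ 0) {P : Place ℂ K}
    (h : NondegenerateAt e f x P) : N.NDP P x f := by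
  obtain ⟨C, h1, h2⟩ := h
  exact K7.H5.ndp_of_dt P hx hf0 h1 h2

theorem small_of {P : Place ℂ K} {m : ℕ} (h : SmallCentre m x P) : K7.H5.Small m P x := by
  intro s hs
  obtain ⟨p, hp, h1⟩ := h s
  have h2 := (K7.H5.ri_iff P).2 hs p hp
  exact h1.elim h2.1 fun h3 => h3 h2.2

theorem eq_om (hred : LinearIndependent K fun l => gr x (f l))
    {ω : (Fin n → Derivation ℂ K K) → K} (hω : IsResidueForm e f x ω) :
    ∃ C0 : Fin n → Fin r → ℤ, dt e (fun l => gr x (f l)) C0 ≠ 0 ∧ ω = Om e x f C0 := by
  obtain ⟨C0, h0⟩ := exists_dt hred e
  refine ⟨C0, h0, funext fun D => ?_⟩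
  have h1 : dt e (fun l => gr x (f l)) C0 * ω D = (cw C0 fun a => lg x (D a)).det := hω C0 D
  unfold Om
  rw [eq_div_iff h0, mul_comm]
  exact h1

end

/-- **Good minimal models of degenerate systems.** Let `n ≥ 1`, let `f` be Laurent polynomials in
`n + q` variables and let `x` be the generic point of a component `V`, of dimension `n` and with
function field `K`, of the set of common zeros of the `f l` in the torus, such that the gradients of
the `f l` are linearly independent over `K`; let `ω` be the residue form on `V`. Suppose that the
Fine interior of the system is not empty. If the system is log canonical at all prime divisors over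
`V`, then `V` is birational to a normal projective variety with canonical singularities and a nef,
and even semiample, canonical divisor. If it is terminal at all prime divisors over `V`, then `V` is
birational to such a variety with terminal singularities. -/
theorem result {n q : ℕ} (hn : 1 ≤ n) {f : Fin q → (Fin (n + q) → ℤ) →₀ ℂ} {K : Type} [Field K]
    [Algebra ℂ K] {x : Fin (n + q) → K} (hx : IsGenericPoint n f x)
    (hred : LinearIndependent K fun l => gr x (f l)) {e : Fin q ⊕ Fin n ≃ Fin (n + q)}
    {ω : (Fin n → Derivation ℂ K K) → K} (hω : IsResidueForm e f x ω)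
    (hF : (FineInterior f).Nonempty) :
    ((∀ P : Place ℂ K, Divisorial n P → LogCanonicalAt e f x ω P) → GoodCanonicalModel K n) ∧
    ((∀ P : Place ℂ K, Divisorial n P → TerminalAt e f x ω P) → GoodTerminalModel K n) := by
  classical
  obtain ⟨hx0, hfx, hgen, htr⟩ := hx
  obtain ⟨C0, h0, hωO⟩ := eq_om hred hω
  have hf0 : ∀ l, f l ≠ 0 := by
    intro l hl
    apply hred.ne_zero l
    rw [hl]
    funext i
    exact Finsupp.sum_zero_index
  have hb : ∀ (P : Place ℂ K) (a : ℤ), Discrepancy f x ω P a →
      OrdGe P (Om e x f C0) ((K7.H5.bound P x f + a : ℤ) : ℚ) := by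
    intro P a h
    have h1 : K7.H5.bound P x f + a = if direction x P = 0 then a else
        a - 1 - ∑ l, mn (direction x P) (f l) := by
      unfold K7.H5.bound
      by_cases hv : vec P x = 0
      · have hv' : direction x P = 0 := hv
        rw [if_pos hv, if_pos hv', zero_add]
      · have hv' : ¬ direction x P = 0 := hv
        rw [if_neg hv, if_neg hv']
        change -1 - ∑ l, mn (vec P x) (f l) + a = a - 1 - ∑ l, mn (vec P x) (f l)
        ring
    rw [h1, ← hωO]
    exact h
  have main := fun hlc => K7.H5.exists_model_sing hn rfl htr hx0 hgen hfx h0 hF hlc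
  constructor
  · intro h
    obtain ⟨N, y, hy, h1, h2, -⟩ := main (fun P hP => (h P hP).imp (ndp_of hx0 hf0)
      fun h => ⟨small_of h.1, by
      have h4 := hb P 0 h.2
      rw [add_zero] at h4
      exact h4⟩)
    exact ⟨N, y, hy, h1, K7.H5.nef_of_semiample hy h2, h2⟩
  · intro h
    obtain ⟨N, y, hy, -, h2, h3⟩ := main (fun P hP => (h P hP).imp (ndp_of hx0 hf0)
      fun h => ⟨small_of h.1, by
      intro D hD
      rcases hb P 1 h.2 D hD with h4 | h4
      · exact Or.inl h4
      · right
        refine le_trans ?_ h4
        push_cast
        linarith⟩)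
    exact ⟨N, y, hy, h3 fun P hP => (h P hP).imp (ndp_of hx0 hf0) fun h => hb P 1 h.2,
      K7.H5.nef_of_semiample hy h2, h2⟩

end Pool.Agent.Results.MP_fa3f7f_ag.DegenerateMinimalModels
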