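import Pool.Agent.K7.H5.Img

/-!
# Minimal models of images of nondegenerate varieties of any Kodaira dimension

Let `V` be a component, of dimension `n ≥ 1`, of the set of common zeros in the torus
`(ℂ^*)^(n + q)` of Laurent polynomials `f 1, ..., f q`, and suppose that the system is
nondegenerate along `V`: for every integral vector `v` the logarithmic gradients of the initial
parts `ini v (f l)` are linearly independent at the points of the initial degeneration of `V`.
This is true for systems which are nondegenerate in the sense of Khovanskii. The Newton polytopes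
are arbitrary.

Let `u` and `w 1, ..., w N` be integral vectors such that `u` and the `u + M w j` are in the Fine
interior of the system, let `t j = x ^ w j`, and let `d` be the dimension of the image `V'` of `V`
under the rational map given by the `t j`. Then `κ(V) ≥ d`. Suppose that `κ(V) = d`; this means that
`V ⇢ V'` is, up to a finite map, the Iitaka fibration of `V`. Here `d` may be any number from `0`
to `n`.

Let `V ⇢ W` be any dominant rational map of finite degree: `W` is not supposed to be a quotient by a
group, the map is not related to the torus or to the Iitaka fibration, its ramification is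
arbitrary.

**Theorem.** Suppose that `V` is birational to its image in `W × V'` and `2 deg (V / W) ≤ M + 1`, or,
more generally, that some section of `K_V` twisted by `-M` has a nonzero trace on the image `W'` of
`V` in `W × V'`, and `2 deg (W' / W) ≤ M + 1`. Then `κ(W) = κ_σ(W) = d`, on every normal projective
variety with canonical singularities which is birational to `W`. If `deg (V / W)` is a prime number
`p` with `2 p ≤ M + 1`, then this is true for all `W`, except for those such that `V ⇢ V'` factors
through `V ⇢ W`.

A projective manifold `X` with `κ(X) = κ_σ(X)` has a good minimal model (Gongyo, Lehmann; Druel;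
Demailly, Hacon, Pǎun), so the minimal model conjecture is true for these `W`.

Proof. The traces on `W` of the forms `A(t) x ^ u Res`, where `A` is a polynomial of degree at most
`M`, are regular canonical forms, and they generate a field of transcendence degree at least `d`
(`core_img`, from the starting repository). So `κ(W) ≥ d`. On the other hand
`κ_σ(V) = κ(V) = d`, by the starting repository (`N.all_sys`), and `κ_σ(W) ≤ κ_σ(V)`.
-/

set_option autoImplicit false
set_option linter.overlappingInstances false
set_option maxHeartbeats 1000000

open FF Module Pool.Agent.W602.GT Pool.Agent.R885 Pool.Agent.Y172 Pool.Agent.K7.H5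

namespace Pool.Agent.Results.MP_fa3f7f_ag.ImagesEveryKodairaDimension

section

variable {K : Type} [Field K] [Algebra ℂ K]

/-- `x` is the generic point of a subvariety of dimension `n`, with function field `K`, of the set
of common zeros of the `f l` in the torus `(ℂ^*) ^ r`. -/
def IsGenericPoint {r q : ℕ} (n : ℕ) (f : Fin q → (Fin r → ℤ) →₀ ℂ) (x : Fin r → K) : Prop :=
  (∀ i, x i ≠ 0) ∧ (∀ l, ev x (f l) = 0) ∧
    IntermediateField.adjoin ℂ (Set.range x) = ⊤ ∧ Algebra.trdeg ℂ K = (n : ℕ)

/-- The system is nondegenerate along the subvariety `V` of the torus with the generic point `x`: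
for all integral vectors `v` the logarithmic gradients of the initial parts of the `f l` are linearly
independent at the points `c` of the initial degeneration of `V`. -/
def Nondegenerate {r q : ℕ} (f : Fin q → (Fin r → ℤ) →₀ ℂ) (x : Fin r → K) : Prop :=
  ∀ (v : Fin r → ℤ) (c : Fin r → ℂ), (∀ i, c i ≠ 0) →
    (∀ g : (Fin r → ℤ) →₀ ℂ, ev x g = 0 → ev c (ini v g) = 0) →
      LinearIndependent ℂ fun l => gr c (ini v (f l))

/-- The integral vector `u` is in the Fine interior of the system. -/
def InFine {r q : ℕ} (f : Fin q → (Fin r → ℤ) →₀ ℂ) (u : Fin r → ℤ) : Prop :=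
  ∀ v : Fin r → ℤ, v ≠ 0 → 1 + ∑ l, mn v (f l) ≤ u ⬝ᵥ v

/-- The form `ω` is a section of `K_V - M H` on all models of `V`, where `H` is the pullback of the
hyperplane class under the map given by `1, t 1, ..., t N`: its products with the monomials of
degree at most `M` in the `t j` are canonical forms which are regular at all prime divisors. -/
def IsTwisted {N : ℕ} (n M : ℕ) (t : Fin N → K) (ω : (Fin n → Derivation ℂ K K) → K) : Prop :=
  IsPluri 1 ω ∧ ∀ a : Fin N → ℕ, ∑ j, a j ≤ M → ∀ P : Place ℂ K, Divisorial n P →
    RegAt P (fun D => (∏ j, t j ^ a j) * ω D)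

/-- The form `ω` on `V` has a nonzero trace on the variety with the function field `F`: its value on
the extensions to `K` of some derivations of `F` has a nonzero trace. -/
def TraceNe {n : ℕ} (ω : (Fin n → Derivation ℂ K K) → K) (F : IntermediateField ℂ K) : Prop :=
  ∃ (D : Fin n → Derivation ℂ F F) (D' : Fin n → Derivation ℂ K K),
    (∀ i g, D' i (algebraMap F K g) = algebraMap F K (D i g)) ∧
    Algebra.trace F K (ω D') ≠ 0

end

/-- The variety `X` with generic point `y`, of dimension `n`, has canonical singularities: for every
prime divisor `Q` over `X` there is an `r`-canonical form `η` which generates `r K_X` at the centre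
of `Q` on `X` (its order is `0` along all prime divisors `P` of `X` through this centre), with order
at least `0` along `Q`. -/
def Canonical {L : Type} [Field L] [Algebra ℂ L] {N : ℕ} (y : Fin (N + 1) → L) (n : ℕ) : Prop :=
  ∀ Q : Place ℂ L, Divisorial n Q → ∃ r : ℕ, 0 < r ∧ ∃ η : (Fin n → Derivation ℂ L L) → L,
    IsPluri r η ∧ (∀ P, IsPrimeDivisor y P → Through y P Q → OrdEq P η 0) ∧ OrdGe Q η 0

/-- The Kodaira dimension and the numerical dimension of the canonical divisor are equal to `d` on
every normal projective variety with canonical singularities, of dimension `n`, which has the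
function field `L`. -/
def DimensionsEq (L : Type) [Field L] [Algebra ℂ L] (n d : ℕ) : Prop :=
  ∀ (N : ℕ) (y : Fin (N + 1) → L), NormalModel y → Canonical y n →
    kodairaDim y n 0 = (d : WithBot ℕ) ∧
      ∀ A, Effective y A → Integral y A → numericalDim y n 0 A = (d : EReal)

/-- **Images of nondegenerate varieties of any Kodaira dimension.** Let `V` be a component, of
dimension `n`, of the set of common zeros of a system `f` which is nondegenerate along `V`, with
function field `K` and generic point `x`. Let `u` and the `u + M w j` be in the Fine interior, `t j`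
the monomial with the exponent `w j`, and `d` the transcendence degree of `ℂ(t)`; suppose that the
Kodaira dimension of `V` is not greater than `d`. Let `V ⇢ W` be a dominant rational map of finite
degree, and `L` the function field of `W`.
(1) If `K = L(t)` and `2 [K : L] ≤ M + 1`, then `κ(W) = κ_σ(W) = d`. (2) If some twisted form on `V`
has a nonzero trace on the variety with the function field `L(t)`, and `2 [L(t) : L] ≤ M + 1`, then
`κ(W) = κ_σ(W) = d`. (3) If `[K : L]` is a prime number, `2 [K : L] ≤ M + 1` and some `t j` is not
in `L`, then `κ(W) = κ_σ(W) = d`. -/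
theorem result {n q N M d : ℕ} (hn : 1 ≤ n) (hM : 1 ≤ M) {f : Fin q → (Fin (n + q) → ℤ) →₀ ℂ}
    {K : Type} [Field K] [Algebra ℂ K] {x : Fin (n + q) → K} (hx : IsGenericPoint n f x)
    (hf : Nondegenerate f x) {u : Fin (n + q) → ℤ} {w : Fin N → Fin (n + q) → ℤ}
    (hu : InFine f u) (hw : ∀ j, InFine f (u + (M : ℤ) • w j)) {t : Fin N → K}
    (ht : ∀ j, t j = R885.mono x (w j))
    (hd : Algebra.trdeg ℂ (IntermediateField.adjoin ℂ (Set.range t)) = (d : ℕ))
    (hk : ¬ KodGe ℂ K n (fun _ => False) (d + 1))
    (L : Type) [Field L] [Algebra ℂ L] [Algebra L K] [IsScalarTower ℂ L K]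
    [FiniteDimensional L K] :
    (IntermediateField.adjoin L (Set.range t) = ⊤ → 2 * finrank L K ≤ M + 1 →
      DimensionsEq L n d) ∧
    (∀ ω : (Fin n → Derivation ℂ K K) → K, IsTwisted n M t ω →
      TraceNe ω ((IntermediateField.adjoin L (Set.range t)).restrictScalars ℂ) →
      2 * finrank L (IntermediateField.adjoin L (Set.range t)) ≤ M + 1 →
      DimensionsEq L n d) ∧
    ((finrank L K).Prime → 2 * finrank L K ≤ M + 1 → (∃ j, ∀ g : L, algebraMap L K g ≠ t j) →
      DimensionsEq L n d) := by
  classical
  have hess : Algebra.EssFiniteType ℂ K := by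
    rw [← IntermediateField.fg_top_iff, ← hx.2.2.1]
    exact ⟨Finset.univ.image x, by rw [Finset.coe_image, Finset.coe_univ, Set.image_univ]⟩
  have hHN : Pool.Agent.R885.N.HN x f := Pool.Agent.R885.N.hn_of_along hx.1 hf
  have e : Fin q ⊕ Fin n ≃ Fin (n + q) := Fintype.equivOfCardEq (by
    rw [Fintype.card_sum, Fintype.card_fin, Fintype.card_fin, Fintype.card_fin, add_comm])
  obtain ⟨ω0, hω0, hne⟩ := exists_twisted hx.1 hx.2.2.1 e hx.2.1 hHN hM hu hw
  have htE : t = fun j => R885.mono x (w j) := funext ht
  rw [← htE] at hω0
  have h0 : Pool.Agent.W619.Y.KodTr ℂ K n 0 := kodTr_mono (Nat.zero_le d) (by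
    have h1 : (IntermediateField.adjoin K (Set.range t)).restrictScalars ℂ = ⊤ := by
      rw [eq_top_iff]
      intro z _
      exact (IntermediateField.adjoin K (Set.range t)).algebraMap_mem z
    have h2 : finrank K (IntermediateField.adjoin K (Set.range t)) = 1 := by
      have h3 : IntermediateField.adjoin K (Set.range t) = ⊥ := Subsingleton.elim _ _
      rw [h3]
      exact IntermediateField.finrank_bot
    exact (Pool.Agent.R882.LT.core_img (L := K) hx.2.2.2 hd rfl hω0
      (Pool.Agent.R882.LT.traceNe_top hx.2.2.2 hne h1)).2 (by omega))
  have hnum := numLe_of_kod hn rfl hx.2.2.2 hx.1 hx.2.2.1 hx.2.1 hHN h0 hk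
  have key : ∀ ω : (Fin n → Derivation ℂ K K) → K, IsTwisted n M t ω →
      TraceNe ω ((IntermediateField.adjoin L (Set.range t)).restrictScalars ℂ) →
      2 * finrank L (IntermediateField.adjoin L (Set.range t)) ≤ M + 1 →
      DimensionsEq L n d := fun ω hω htn hdeg N' y hy hcan =>
    img_dims (L := L) hx.2.2.2 hess hd hnum hω htn hdeg hy hcan
  have htop : IntermediateField.adjoin L (Set.range t) = ⊤ → 2 * finrank L K ≤ M + 1 →
      DimensionsEq L n d := by
    intro h hdeg
    have h1 : (IntermediateField.adjoin L (Set.range t)).restrictScalars ℂ = ⊤ := by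
      rw [h]
      rfl
    have h2 := key _ hω0 (Pool.Agent.R882.LT.traceNe_top hx.2.2.2 hne h1)
    rw [h, IntermediateField.finrank_top'] at h2
    exact h2 hdeg
  refine ⟨htop, key, fun hp hdeg hj => htop ?_ hdeg⟩
  obtain ⟨j, hj⟩ := hj
  have hsimple := IntermediateField.isSimpleOrder_of_finrank_prime L K hp
  rcases hsimple.eq_bot_or_eq_top (IntermediateField.adjoin L (Set.range t)) with h1 | h1
  · exfalso
    have h2 : t j ∈ IntermediateField.adjoin L (Set.range t) :=
      IntermediateField.subset_adjoin _ _ ⟨j, rfl⟩
    rw [h1, IntermediateField.mem_bot] at h2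
    obtain ⟨g, hg⟩ := h2
    exact hj g hg
  · exact h1

end Pool.Agent.Results.MP_fa3f7f_ag.ImagesEveryKodairaDimension
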