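import Pool.Agent.K7.H5.Img
import Pool.Agent.R882.TEll2
import Pool.Agent.R882.GLd

/-!
# Minimal models of images of nondegenerate varieties fibred by elliptic curves

Let `V` be a component, of dimension `n + 1`, of the set of common zeros in the torus of a system
`f 1, ..., f q` of Laurent polynomials in `n + 1 + q` variables which is nondegenerate in the sense
of Khovanskii; the Newton polytopes are arbitrary. Let `u` and `w 1, ..., w N` be integral vectors
such that `u` and the `u + M w j` are in the Fine interior of the system, and let `t j = x ^ w j`.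
Suppose that the image `V'` of `V` under the `t j` has dimension `n = dim V - 1`, that the field
`ℂ(t)` is algebraically closed in the function field `K` of `V`, and that `V` is not of general type.
Then `V ⇢ V'` is the Iitaka fibration of `V`, and its general fibres are curves of genus one.

Let `V ⇢ W` be any dominant rational map of finite degree, `W'` the image of `V` in `W × V'`, and
suppose that `2 deg (W' / W) ≤ M + 1`. This is true if `2 deg (V / W) ≤ M + 1`. There is no other
condition: `W` is not supposed to be a quotient by a group, and the map is not related to the torus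
or to the fibration.

**Theorem.** Either `W` is uniruled, or `κ(W) = κ_σ(W) = n = dim W - 1`, on all normal projective
varieties with canonical singularities which are birational to `W`.

So the minimal model conjecture is true for all these `W`: in the first case `W` is birational to a
Mori fibre space (Birkar, Cascini, Hacon, McKernan), in the second one `W` has a good minimal model
(Lai; Gongyo, Lehmann).

Proof. Let `ω = x ^ u Res`, a twisted form on `V`. If its trace on `W'` is not zero, then the traces
on `W` of the forms `A(t) ω`, with `A` of degree at most `M`, show that `κ(W) ≥ n`, and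
`κ_σ(W) ≤ κ_σ(V) = κ(V) = n`. If its trace on `W'` is zero, then the trace of the regular
differential of the geometric generic fibre `C` of `V ⇢ V'` on the geometric generic fibre `C'` of
`W' ⇢ V'` is zero. Since `C` has genus one, `C'` is rational, so `W'` and `W` are uniruled
(`GL.dich`, `GL.span_toric`, from the starting repository).
-/

set_option autoImplicit false
set_option linter.overlappingInstances false
set_option maxHeartbeats 1000000

open FF Module Pool.Agent.W602.GT Pool.Agent.R885 Pool.Agent.Y172 Pool.Agent.K7.H5
open Pool.Agent.W619.PQ (IsUniruled)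

namespace Pool.Agent.Results.MP_fa3f7f_ag.ImagesOfEllipticFibrations

/-- The Laurent polynomials `f l` are nondegenerate in the sense of Khovanskii: the initial parts
`ini v (f l)` have linearly independent logarithmic gradients at all their common zeros in the
torus. -/
def Nondegenerate {r q : ℕ} (f : Fin q → (Fin r → ℤ) →₀ ℂ) : Prop :=
  ∀ v : Fin r → ℤ, ∀ c : Fin r → ℂ, (∀ i, c i ≠ 0) → (∀ l, ev c (ini v (f l)) = 0) →
    LinearIndependent ℂ fun l => gr c (ini v (f l))

/-- `x` is the generic point of a subvariety of dimension `n`, with function field `K`, of the set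
of common zeros of the `f l` in the torus `(ℂ^*) ^ r`. -/
def IsGenericPoint {K : Type} [Field K] [Algebra ℂ K] {r q : ℕ} (n : ℕ)
    (f : Fin q → (Fin r → ℤ) →₀ ℂ) (x : Fin r → K) : Prop :=
  (∀ i, x i ≠ 0) ∧ (∀ l, ev x (f l) = 0) ∧
    IntermediateField.adjoin ℂ (Set.range x) = ⊤ ∧ Algebra.trdeg ℂ K = (n : ℕ)

/-- The integral vector `u` is in the Fine interior of the system. -/
def InFine {r q : ℕ} (f : Fin q → (Fin r → ℤ) →₀ ℂ) (u : Fin r → ℤ) : Prop :=
  ∀ v : Fin r → ℤ, v ≠ 0 → 1 + ∑ l, mn v (f l) ≤ u ⬝ᵥ v

/-- The variety `X` with generic point `y`, of dimension `n`, has canonical singularities: for every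
prime divisor `Q` over `X` there is an `r`-canonical form `η` which generates `r K_X` at the centre
of `Q` on `X` (its order is `0` along all prime divisors `P` of `X` through this centre), with order
at least `0` along `Q`. -/
def Canonical {L : Type} [Field L] [Algebra ℂ L] {N : ℕ} (y : Fin (N + 1) → L) (n : ℕ) : Prop :=
  ∀ Q : Place ℂ L, Divisorial n Q → ∃ r : ℕ, 0 < r ∧ ∃ η : (Fin n → Derivation ℂ L L) → L,
    IsPluri r η ∧ (∀ P, IsPrimeDivisor y P → Through y P Q → OrdEq P η 0) ∧ OrdGe Q η 0

/-- The Kodaira dimension and the numerical dimension of the canonical divisor are equal to `d` on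
every normal projective variety with canonical singularities, of dimension `n`, which has the
function field `L`. -/
def DimensionsEq (L : Type) [Field L] [Algebra ℂ L] (n d : ℕ) : Prop :=
  ∀ (N : ℕ) (y : Fin (N + 1) → L), NormalModel y → Canonical y n →
    kodairaDim y n 0 = (d : WithBot ℕ) ∧
      ∀ A, Effective y A → Integral y A → numericalDim y n 0 A = (d : EReal)

/-- **Images of elliptic fibrations.** Let `V` be a component, of dimension `n + 1`, of the set of
common zeros of a nondegenerate system `f`, with function field `K` and generic point `x`. Let `u`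
and the `u + M w j` be in the Fine interior, and `t j` the monomial with the exponent `w j`. Suppose
that the transcendence degree of `ℂ(t)` is `n`, that `ℂ(t)` is algebraically closed in `K`, and that
`V` is not of general type. Let `V ⇢ W` be a dominant rational map of finite degree, `L` the
function field of `W`, and suppose that `2 [L(t) : L] ≤ M + 1`. Then `W` is uniruled, or
`κ(W) = κ_σ(W) = n = dim W - 1`. -/
theorem result {n q N M : ℕ} (hM : 1 ≤ M) {f : Fin q → (Fin (n + 1 + q) → ℤ) →₀ ℂ}
    (hf : Nondegenerate f) {K : Type} [Field K] [Algebra ℂ K] {x : Fin (n + 1 + q) → K}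
    (hx : IsGenericPoint (n + 1) f x) {u : Fin (n + 1 + q) → ℤ}
    {w : Fin N → Fin (n + 1 + q) → ℤ} (hu : InFine f u)
    (hw : ∀ j, InFine f (u + (M : ℤ) • w j)) {t : Fin N → K}
    (ht : ∀ j, t j = R885.mono x (w j))
    (hd : Algebra.trdeg ℂ (IntermediateField.adjoin ℂ (Set.range t)) = (n : ℕ))
    (hcl : ∀ g : K, IsAlgebraic (IntermediateField.adjoin ℂ (Set.range t)) g →
      g ∈ IntermediateField.adjoin ℂ (Set.range t))
    (hk : ¬ KodGe ℂ K (n + 1) (fun _ => False) (n + 1))
    (L : Type) [Field L] [Algebra ℂ L] [Algebra L K] [IsScalarTower ℂ L K]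
    [FiniteDimensional L K]
    (hdeg : 2 * finrank L (IntermediateField.adjoin L (Set.range t)) ≤ M + 1) :
    IsUniruled ℂ L (n + 1) ∨ DimensionsEq L (n + 1) n := by
  classical
  obtain ⟨hx0, hfx, hgen, htr⟩ := hx
  have hess : Algebra.EssFiniteType ℂ K := by
    rw [← IntermediateField.fg_top_iff, ← hgen]
    exact ⟨Finset.univ.image x, by rw [Finset.coe_image, Finset.coe_univ, Set.image_univ]⟩
  have hnd : ∀ v, NonDeg ℂ f v := fun v => hf v
  have hHN : Pool.Agent.R885.N.HN x f := Pool.Agent.R885.N.hn_of_along hx0 (fun v c hc hcl' =>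
    hf v c hc fun l => hcl' (f l) (hfx l))
  have e : Fin q ⊕ Fin (n + 1) ≃ Fin (n + 1 + q) := Fintype.equivOfCardEq (by
    rw [Fintype.card_sum, Fintype.card_fin, Fintype.card_fin, Fintype.card_fin, add_comm])
  obtain ⟨ω, hω, hne⟩ := exists_twisted hx0 hgen e hfx hHN hM hu hw
  have htE : t = fun j => R885.mono x (w j) := funext ht
  rw [← htE] at hω
  -- the Fine interior
  have hFI : ∀ w' : Fin (n + 1 + q) → ℤ, InFine f w' → (fun i => (w' i : ℚ)) ∈ FineInt f := by
    intro w' hw' v hv
    have h1 := hw' v hv
    have h2 : ((1 + ∑ l, mn v (f l) : ℤ) : ℚ) ≤ ((w' ⬝ᵥ v : ℤ) : ℚ) := by exact_mod_cast h1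
    unfold dotProduct at h2
    push_cast at h2
    exact h2
  have hF : (FineInt f).Nonempty := ⟨_, hFI u hu⟩
  have hdir : ∀ j, w j ∈ dirs f := by
    intro j
    refine ⟨_, hFI u hu, 1, le_rfl, ?_⟩
    have h1 : InFine f (u + ∑ l, ((Pi.single j 1 : Fin N → ℕ) l : ℤ) • w l) :=
      Pool.Agent.R882.LT.inFine_comb hM hu hw _ (by rw [Finset.sum_pi_single']; simp [hM])
    have h2 : ∑ l, ((Pi.single j 1 : Fin N → ℕ) l : ℤ) • w l = w j := by
      rw [Finset.sum_eq_single j]
      · simp
      · intro l _ hl
        rw [Pi.single_eq_of_ne hl]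
        simp
      · intro h
        exact absurd (Finset.mem_univ _) h
    rw [h2] at h1
    have h3 := hFI _ h1
    have h4 : (fun i => (((u + w j) i : ℤ) : ℚ)) =
        fun i => (u i : ℚ) + (w j i : ℚ) / ((1 : ℕ) : ℚ) := by
      funext i
      push_cast [Pi.add_apply]
      ring
    rw [h4] at h3
    exact h3
  -- the Iitaka fibration
  have hle : IntermediateField.adjoin ℂ (Set.range t) ≤
      IntermediateField.adjoin ℂ {z : K | ∃ w ∈ dirs f, z = R885.mono x w} := by
    rw [IntermediateField.adjoin_le_iff]
    rintro _ ⟨j, rfl⟩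
    exact IntermediateField.subset_adjoin _ _ ⟨w j, hdir j, ht j⟩
  obtain ⟨d0, hd0⟩ : ∃ d0 : ℕ, Algebra.trdeg ℂ
      (IntermediateField.adjoin ℂ {z : K | ∃ w ∈ dirs f, z = R885.mono x w}) = (d0 : ℕ) := by
    have h1 : Algebra.trdeg ℂ
        (IntermediateField.adjoin ℂ {z : K | ∃ w ∈ dirs f, z = R885.mono x w}) ≤
        ((n + 1 : ℕ) : Cardinal) := by
      rw [← htr]
      exact trdeg_le_of_injective (IntermediateField.val _) Subtype.val_injective
    exact ⟨_, (Cardinal.cast_toNat_of_lt_aleph0 (h1.trans_lt Cardinal.natCast_lt_aleph0)).symm⟩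
  have hmain := Pool.Agent.R885.main (by omega) rfl htr hx0 hgen hfx hnd hF hd0
  have hdn : d0 = n := by
    have h1 : d0 ≤ n := by
      by_contra hcon
      exact hk (kodGe_of_tr (kodTr_mono (by omega) hmain.1))
    have h2 : n ≤ d0 := by
      have h3 : Algebra.trdeg ℂ (IntermediateField.adjoin ℂ (Set.range t)) ≤ Algebra.trdeg ℂ
          (IntermediateField.adjoin ℂ {z : K | ∃ w ∈ dirs f, z = R885.mono x w}) :=
        trdeg_le_of_injective (IntermediateField.inclusion hle)
          (IntermediateField.inclusion hle).injective
      rw [hd, hd0] at h3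
      exact_mod_cast h3
    omega
  subst hdn
  have hBd : ∀ w' ∈ dirs f, R885.mono x w' ∈ IntermediateField.adjoin ℂ (Set.range t) := by
    intro w' hw'
    refine hcl _ (Pool.Agent.R882.GL.alg_of_trdeg hd0 hd ?_
      (IntermediateField.subset_adjoin _ _ ⟨w', hw', rfl⟩))
    rintro _ ⟨j, rfl⟩
    exact hle (IntermediateField.subset_adjoin _ _ ⟨j, rfl⟩)
  have hspan : Pool.Agent.R882.GL.SpanFib (J := Unit) (IntermediateField.adjoin ℂ (Set.range t))
      (fun _ => ω) :=
    Pool.Agent.R882.GL.span_toric rfl hx0 hgen hfx hnd hF hd0 hBd hne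
  -- the image in `W × V'`
  have hleL : IntermediateField.adjoin ℂ (Set.range t) ≤
      (IntermediateField.adjoin L (Set.range t)).restrictScalars ℂ := by
    rw [IntermediateField.adjoin_le_iff]
    exact IntermediateField.subset_adjoin L _
  obtain ⟨E', hE'⟩ : ∃ E' : IntermediateField (IntermediateField.adjoin ℂ (Set.range t)) K,
      E' = IntermediateField.extendScalars hleL := ⟨_, rfl⟩
  have hE'r : E'.restrictScalars ℂ =
      (IntermediateField.adjoin L (Set.range t)).restrictScalars ℂ := by
    rw [hE']
    exact IntermediateField.extendScalars_restrictScalars hleL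
  have hfinE : FiniteDimensional E' K := by
    have h1 : FiniteDimensional (IntermediateField.adjoin L (Set.range t)) K := inferInstance
    rw [hE']
    exact h1
  by_cases htn : Pool.Agent.R882.LT.TraceNe ω
      ((IntermediateField.adjoin L (Set.range t)).restrictScalars ℂ)
  · right
    intro N' y hy hcan
    exact img_dims (L := L) htr hess hd hmain.2 hω htn hdeg hy hcan
  · left
    have h1 := Pool.Agent.R882.GL.dich htr _ hd hcl E' (fun _ : Unit => ω) (fun _ => hω.1)
      (fun _ P hP D hD => by
        have h1 := hω.2 0 (by simp) P hP D hD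
        simpa using h1) hspan (fun _ => by rw [hE'r]; exact htn)
    rw [hE'r] at h1
    obtain ⟨C, i1, i2, hC, htrC, ⟨ψ⟩⟩ := h1
    let φ : L →ₐ[ℂ] ((IntermediateField.adjoin L (Set.range t)).restrictScalars ℂ :
        IntermediateField ℂ K) :=
      { toFun := fun g => ⟨algebraMap L K g,
          (IntermediateField.adjoin L (Set.range t)).algebraMap_mem g⟩
        map_one' := Subtype.ext (map_one _)
        map_mul' := fun a b => Subtype.ext (map_mul _ _ _)
        map_zero' := Subtype.ext (map_zero _)
        map_add' := fun a b => Subtype.ext (map_add _ _ _)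
        commutes' := fun c => Subtype.ext (IsScalarTower.algebraMap_apply ℂ L K c).symm }
    exact ⟨C, i1, i2, hC, htrC, ⟨ψ.comp φ⟩⟩

end Pool.Agent.Results.MP_fa3f7f_ag.ImagesOfEllipticFibrations
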