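import Pool.Agent.K7.H5.Nef

/-!
# Good minimal models of nondegenerate complete intersections

Let `f 1, ..., f q` be Laurent polynomials in `n + q` variables over `ℂ`, `n ≥ 1`, and let `X` be an
irreducible component, of dimension `n`, of the set of their common zeros in the torus
`(ℂ^*)^(n + q)`; its function field is `K`, the coordinates are the `x i`. Suppose that the system is
nondegenerate along `X`: for every integral vector `v` the logarithmic gradients of the initial
parts `ini v (f l)` (the sums of the terms on which the linear function `v` is minimal) are linearly
independent at the points of the initial degeneration of `X` in the direction `v` (the common zeros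
in the torus of the `ini v g`, for all `g` which vanish on `X`). This is true if the system is
nondegenerate in the sense of Khovanskii, so for generic coefficients. There is no condition on the
Newton polytopes: they need not be of full dimension, nor is a condition on their positions.

**Theorem.** If the canonical divisor of a smooth projective model of `X` is pseudo-effective, then
`X` is birational to a normal projective variety `X'` with terminal singularities and nef canonical
divisor; `K_{X'}` is even semiample, so `X'` is a good minimal model.

If the canonical divisor is not pseudo-effective, `X` is birational to a Mori fibre space (Birkar,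
Cascini, Hacon, McKernan), so the minimal model conjecture, in the form (a) or (b), is true for all
these `X`, of any dimension `n` and any Kodaira dimension.

All notions are taken on the function field `K`, see `Pool/Agent/Y172/Defs.lean` (normal models,
prime divisors, orders of pluricanonical forms), `Pool/Agent/R887/DefsNef.lean` (nef) and
`Pool/Agent/K7/H5/MDefs.lean` (terminal, semiample), `Pool/Agent/K7/H5/Nef.lean`
(pseudo-effective). `NormalModel y` says that `y` is the generic point, in homogeneous coordinates,
of a normal projective variety with function field `K`. `Terminal y n` says that for every prime
divisor `Q` over this variety there is `r ≥ 1` and an `r`-canonical form which generates `r K` at the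
centre of `Q` (so `K` is `ℚ`-Cartier), and which has positive order along `Q` if `Q` is exceptional.
`CanonicalNef y n` says that all the divisors `q K + H` are semiample, `H` being a hyperplane
section.

The proof. Let `F` be the Fine interior of the system: the set of the `u` with
`⟨u, v⟩ ≥ 1 + mn v` for all integral vectors `v ≠ 0`, where `mn v` is the sum of the minima of `v` on
the supports of the `f l`. If `F` is empty, then either the canonical divisor of `X` is not
pseudo-effective, or the system may be replaced by one in fewer variables, with a smaller `q`, which
has the same function field (`fine_or_neg`, by the exceptional families of the starting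
repository). If `F` is not empty, the set `S` of the tight vectors, for which the minimum over `F` is
`1 + mn v`, is finite, and there is a simplicial projective toric variety whose rays are the elements
of `S`, and whose fan refines the normal fan of `F` (`exists_PD`). Let `X'` be the normalisation of
the closure of `X` in it (`exists_normal`). The monomials in `c F` give `c`-canonical forms which
generate `c K_{X'}` (`exists_model`): a divisor over `X` with the order vector `v ≠ 0` has order at
least `⟨u, v⟩ c⁻¹ - 1 - mn v` with respect to the form given by `u` in `c F`, by nondegeneracy, and
it is greater than `0` if `v` is not in `S`; the divisors with `v` in `S` and minimal order are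
divisors of `X'` by the Jacobian criterion at their centres (`Crit`, `Jac`).
-/

set_option autoImplicit false

open FF Pool.Agent.W602.GT Pool.Agent.Y172 Pool.Agent.R885 Pool.Agent.R887 Pool.Agent.K7.H5

namespace Pool.Agent.Results.MP_fa3f7f_ag.NondegenerateMinimalModels

section

variable {K : Type} [Field K] [Algebra ℂ K]

/-- `x` is the generic point of a subvariety of dimension `n`, with function field `K`, of the set
of common zeros of the `f l` in the torus `(ℂ^*) ^ r`. -/
def IsGenericPoint {r q : ℕ} (n : ℕ) (f : Fin q → (Fin r → ℤ) →₀ ℂ) (x : Fin r → K) : Prop :=
  (∀ i, x i ≠ 0) ∧ (∀ l, ev x (f l) = 0) ∧
    IntermediateField.adjoin ℂ (Set.range x) = ⊤ ∧ Algebra.trdeg ℂ K = (n : ℕ)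

/-- The system is nondegenerate along the subvariety `X` of the torus with the generic point `x`:
for all integral vectors `v` the logarithmic gradients of the initial parts of the `f l` are linearly
independent at the points `c` of the initial degeneration of `X`. -/
def Nondegenerate {r q : ℕ} (f : Fin q → (Fin r → ℤ) →₀ ℂ) (x : Fin r → K) : Prop :=
  ∀ (v : Fin r → ℤ) (c : Fin r → ℂ), (∀ i, c i ≠ 0) →
    (∀ g : (Fin r → ℤ) →₀ ℂ, ev x g = 0 → ev c (ini v g) = 0) →
      LinearIndependent ℂ fun l => gr c (ini v (f l))

end

/-- **Good minimal models.** Let `n ≥ 1`, let `f` be Laurent polynomials in `n + q` variables and let
`x` be the generic point of a component `X`, of dimension `n` and with function field `K`, of the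
set of common zeros of the `f l` in the torus, such that the system is nondegenerate along `X`. If
the canonical divisor of `X` is pseudo-effective, then `X` is birational to a normal projective
variety, with the generic point `y`, which has terminal singularities and a nef, and even semiample,
canonical divisor. -/
theorem result {n q : ℕ} (hn : 1 ≤ n) {f : Fin q → (Fin (n + q) → ℤ) →₀ ℂ} {K : Type} [Field K]
    [Algebra ℂ K] {x : Fin (n + q) → K} (hx : IsGenericPoint n f x) (hf : Nondegenerate f x)
    (hpe : PseudoEffective K n) :
    ∃ (N : ℕ) (y : Fin (N + 1) → K), NormalModel y ∧ Terminal y n ∧ CanonicalNef y n ∧
      CanonicalSemiample y n :=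
  good_model hn hx.2.2.2 hx.1 hx.2.2.1 hx.2.1 hf hpe

end Pool.Agent.Results.MP_fa3f7f_ag.NondegenerateMinimalModels
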